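import Mathlib

set_option autoImplicit false

/-!
# The long-range discrete Gaussian chain: energy form and integer shifts
-/

namespace Pool.Agent.Q216.DG

open Real

/-- The interaction `|k|^{-α}` for `k ≠ 0`, and `0` at `k = 0`. -/
noncomputable def J (α : ℝ) (k : ℤ) : ℝ := if k = 0 then 0 else ((|k| : ℤ) : ℝ) ^ (-α)

/-- The energy form `½ Σ_{(x,y) ∈ ℤ²} J(x-y) (f x - f y)(g x - g y)`, i.e. the sum over
unordered pairs. -/
noncomputable def B (α : ℝ) (f g : ℤ → ℝ) : ℝ :=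
  (1 / 2) * ∑' p : ℤ × ℤ, J α (p.1 - p.2) * ((f p.1 - f p.2) * (g p.1 - g p.2))

lemma J_nonneg (α : ℝ) (k : ℤ) : 0 ≤ J α k := by
  unfold J
  split_ifs
  · exact le_rfl
  · positivity

lemma J_neg (α : ℝ) (k : ℤ) : J α (-k) = J α k := by
  unfold J
  simp

lemma J_summable {α : ℝ} (hα : 1 < α) : Summable (J α) := by
  have h1 : Summable fun n : ℕ => J α (n : ℤ) := by
    have h2 : Summable fun n : ℕ => (n : ℝ) ^ (-α) := by
      have := Real.summable_nat_rpow (p := -α)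
      exact this.2 (by linarith)
    refine Summable.of_nonneg_of_le (fun n => J_nonneg α _) (fun n => ?_) h2
    unfold J
    split_ifs with h
    · positivity
    · have : ((|(n : ℤ)| : ℤ) : ℝ) = n := by
        rw [abs_of_nonneg (by positivity)]; simp
      rw [this]
  refine Summable.of_nat_of_neg h1 ?_
  simpa [J_neg] using h1

/-- functions vanishing off the finite box -/
def Supp (n : ℕ) (f : ℤ → ℝ) : Prop := ∀ x : ℤ, (n : ℤ) < |x| → f x = 0

lemma Supp.add {n : ℕ} {f g : ℤ → ℝ} (hf : Supp n f) (hg : Supp n g) : Supp n (f + g) := by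
  intro x hx
  simp [hf x hx, hg x hx]

lemma Supp.sub {n : ℕ} {f g : ℤ → ℝ} (hf : Supp n f) (hg : Supp n g) : Supp n (f - g) := by
  intro x hx
  simp [hf x hx, hg x hx]

lemma Supp.smul {n : ℕ} {f : ℤ → ℝ} (c : ℝ) (hf : Supp n f) : Supp n (fun x => c * f x) := by
  intro x hx
  simp [hf x hx]

lemma Supp.bdd {n : ℕ} {f : ℤ → ℝ} (hf : Supp n f) : ∃ C : ℝ, 0 ≤ C ∧ ∀ x, |f x| ≤ C := by
  refine ⟨∑ x ∈ Finset.Icc (-(n : ℤ)) n, |f x|, Finset.sum_nonneg (fun _ _ => abs_nonneg _), ?_⟩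
  intro x
  by_cases hx : (n : ℤ) < |x|
  · rw [hf x hx]; simp; exact Finset.sum_nonneg (fun _ _ => abs_nonneg _)
  · have hx' : x ∈ Finset.Icc (-(n : ℤ)) n := by
      rw [Finset.mem_Icc]
      exact abs_le.1 (not_lt.1 hx)
    exact Finset.single_le_sum (f := fun x => |f x|) (fun _ _ => abs_nonneg _) hx'

/-- summability of the energy -/
lemma B_summable {α : ℝ} (hα : 1 < α) {n : ℕ} {f g : ℤ → ℝ} (hf : Supp n f) (hg : Supp n g) :
    Summable fun p : ℤ × ℤ => J α (p.1 - p.2) * ((f p.1 - f p.2) * (g p.1 - g p.2)) := by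
  obtain ⟨C, hC0, hC⟩ := hf.bdd
  obtain ⟨D, hD0, hD⟩ := hg.bdd
  -- dominate by J(x-y) * (1_{x∈Λ} + 1_{y∈Λ}) * 4CD
  let χ : ℤ → ℝ := fun x => if (n : ℤ) < |x| then 0 else 1
  have hχs : Summable χ := by
    refine summable_of_hasFiniteSupport ?_
    refine (Set.finite_Icc (-(n : ℤ)) n).subset ?_
    intro x hx
    rw [Function.mem_support] at hx
    have : ¬ (n : ℤ) < |x| := by
      intro h; apply hx; simp [χ, h]
    exact abs_le.1 (not_lt.1 this)
  have hχ0 : ∀ x, 0 ≤ χ x := by intro x; simp only [χ]; split_ifs <;> norm_num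
  have hJs := J_summable hα
  have h1 : Summable fun p : ℤ × ℤ => χ p.1 * J α (p.1 - p.2) := by
    have h2 : Summable fun q : ℤ × ℤ => χ q.1 * J α q.2 :=
      hχs.mul_of_nonneg hJs hχ0 (J_nonneg α)
    let e : ℤ × ℤ ≃ ℤ × ℤ :=
      { toFun := fun p => (p.1, p.1 - p.2)
        invFun := fun p => (p.1, p.1 - p.2)
        left_inv := by intro p; simp
        right_inv := by intro p; simp }
    have := (e.summable_iff (f := fun q : ℤ × ℤ => χ q.1 * J α q.2)).2 h2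
    exact this
  have h3 : Summable fun p : ℤ × ℤ => χ p.2 * J α (p.1 - p.2) := by
    have := (Equiv.prodComm ℤ ℤ).summable_iff.2 h1
    refine this.congr (fun p => ?_)
    simp only [Function.comp, Equiv.prodComm_apply, Prod.fst_swap, Prod.snd_swap]
    rw [← J_neg α (p.1 - p.2)]
    congr 2
    ring
  refine Summable.of_norm_bounded (g := fun p : ℤ × ℤ => (2 * C) * (2 * D) * (χ p.1 * J α (p.1 - p.2) + χ p.2 * J α (p.1 - p.2))) ((h1.add h3).mul_left _) ?_
  intro p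
  rw [Real.norm_eq_abs, abs_mul, abs_mul, abs_of_nonneg (J_nonneg α _)]
  have hJ := J_nonneg α (p.1 - p.2)
  by_cases h1 : (n : ℤ) < |p.1|
  · by_cases h2 : (n : ℤ) < |p.2|
    · rw [hf _ h1, hf _ h2]
      simp [χ, h1, h2]
    · have : |f p.1 - f p.2| ≤ 2 * C := by
        have := abs_sub (f p.1) (f p.2)
        linarith [hC p.1, hC p.2]
      have h' : |g p.1 - g p.2| ≤ 2 * D := by
        have := abs_sub (g p.1) (g p.2)
        linarith [hD p.1, hD p.2]
      have h5 : |f p.1 - f p.2| * |g p.1 - g p.2| ≤ 2 * C * (2 * D) :=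
        mul_le_mul this h' (abs_nonneg _) (by positivity)
      have h6 : χ p.2 = 1 := by simp [χ, h2]
      have h7 := hχ0 p.1
      rw [h6]
      have h8 : J α (p.1 - p.2) * (|f p.1 - f p.2| * |g p.1 - g p.2|) ≤ J α (p.1 - p.2) * (2 * C * (2 * D)) :=
        mul_le_mul_of_nonneg_left h5 hJ
      have h9 : 0 ≤ 2 * C * (2 * D) * (χ p.1 * J α (p.1 - p.2)) := by positivity
      nlinarith
  · have : |f p.1 - f p.2| ≤ 2 * C := by
      have := abs_sub (f p.1) (f p.2)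
      linarith [hC p.1, hC p.2]
    have h' : |g p.1 - g p.2| ≤ 2 * D := by
      have := abs_sub (g p.1) (g p.2)
      linarith [hD p.1, hD p.2]
    have h5 : |f p.1 - f p.2| * |g p.1 - g p.2| ≤ 2 * C * (2 * D) :=
      mul_le_mul this h' (abs_nonneg _) (by positivity)
    have h6 : χ p.1 = 1 := by simp [χ, h1]
    have h7 := hχ0 p.2
    rw [h6]
    have h8 : J α (p.1 - p.2) * (|f p.1 - f p.2| * |g p.1 - g p.2|) ≤ J α (p.1 - p.2) * (2 * C * (2 * D)) :=
      mul_le_mul_of_nonneg_left h5 hJ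
    have h9 : 0 ≤ 2 * C * (2 * D) * (χ p.2 * J α (p.1 - p.2)) := by positivity
    nlinarith

lemma B_add_left {α : ℝ} (hα : 1 < α) {n : ℕ} {f f' g : ℤ → ℝ} (hf : Supp n f) (hf' : Supp n f')
    (hg : Supp n g) : B α (f + f') g = B α f g + B α f' g := by
  unfold B
  rw [← mul_add, ← (B_summable hα hf hg).tsum_add (B_summable hα hf' hg)]
  congr 1
  refine tsum_congr (fun p => ?_)
  simp only [Pi.add_apply]
  ring

lemma B_comm (α : ℝ) (f g : ℤ → ℝ) : B α f g = B α g f := by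
  unfold B
  congr 1
  refine tsum_congr (fun p => ?_)
  ring

lemma B_smul_left (α c : ℝ) (f g : ℤ → ℝ) : B α (fun x => c * f x) g = c * B α f g := by
  unfold B
  have h : ∑' p : ℤ × ℤ, J α (p.1 - p.2) * ((c * f p.1 - c * f p.2) * (g p.1 - g p.2)) =
      c * ∑' p : ℤ × ℤ, J α (p.1 - p.2) * ((f p.1 - f p.2) * (g p.1 - g p.2)) := by
    rw [← tsum_mul_left]
    refine tsum_congr (fun p => ?_)
    ring
  rw [h]
  ring

lemma B_neg_left (α : ℝ) (f g : ℤ → ℝ) : B α (-f) g = - B α f g := by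
  have := B_smul_left α (-1) f g
  have h : (fun x => (-1 : ℝ) * f x) = -f := by
    ext x; simp
  rw [h] at this
  linarith

lemma B_add_right {α : ℝ} (hα : 1 < α) {n : ℕ} {f g g' : ℤ → ℝ} (hf : Supp n f) (hg : Supp n g)
    (hg' : Supp n g') : B α f (g + g') = B α f g + B α f g' := by
  rw [B_comm, B_add_left hα hg hg' hf, B_comm α g, B_comm α g']

lemma B_self_nonneg (α : ℝ) (f : ℤ → ℝ) : 0 ≤ B α f f := by
  unfold B
  refine mul_nonneg (by norm_num) (tsum_nonneg (fun p => ?_))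
  exact mul_nonneg (J_nonneg _ _) (mul_self_nonneg _)

lemma Supp.neg {n : ℕ} {f : ℤ → ℝ} (hf : Supp n f) : Supp n (-f) := by
  intro x hx
  simp [hf x hx]

/-- `H(f - g) = H(f) - 2 B(g,f) + H(g)` -/
lemma B_sub_self {α : ℝ} (hα : 1 < α) {n : ℕ} {f g : ℤ → ℝ} (hf : Supp n f) (hg : Supp n g) :
    B α (f - g) (f - g) = B α f f - 2 * B α g f + B α g g := by
  rw [sub_eq_add_neg, B_add_left hα hf hg.neg (hf.add hg.neg), B_add_right hα hf hf hg.neg,
    B_add_right hα hg.neg hf hg.neg, B_neg_left, B_neg_left, B_comm α f (-g), B_neg_left,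
    B_comm α g (-g), B_neg_left]
  ring

/-- coercivity -/
lemma B_coercive {α : ℝ} (hα : 1 < α) {n : ℕ} {f : ℤ → ℝ} (hf : Supp n f) :
    ((2 * n + 1 : ℕ) : ℝ) ^ (-α) * ∑ x ∈ Finset.Icc (-(n : ℤ)) n, (f x) ^ 2 ≤ B α f f := by
  have hs := B_summable hα hf hf
  have hα0 : 0 < α := by linarith
  -- use pairs (x, n+1) and (n+1, x)
  let S : Finset (ℤ × ℤ) := (Finset.Icc (-(n : ℤ)) n).image (fun x => (x, (n : ℤ) + 1)) ∪
    (Finset.Icc (-(n : ℤ)) n).image (fun x => ((n : ℤ) + 1, x))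
  have hle : ∑ p ∈ S, J α (p.1 - p.2) * ((f p.1 - f p.2) * (f p.1 - f p.2)) ≤
      ∑' p : ℤ × ℤ, J α (p.1 - p.2) * ((f p.1 - f p.2) * (f p.1 - f p.2)) :=
    hs.sum_le_tsum S (fun p _ => mul_nonneg (J_nonneg _ _) (mul_self_nonneg _))
  have hn1 : f ((n : ℤ) + 1) = 0 := by
    apply hf
    rw [abs_of_nonneg (by positivity)]; linarith
  have hdisj : Disjoint ((Finset.Icc (-(n : ℤ)) n).image (fun x => (x, (n : ℤ) + 1)))
      ((Finset.Icc (-(n : ℤ)) n).image (fun x => ((n : ℤ) + 1, x))) := by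
    rw [Finset.disjoint_left]
    intro p hp hp'
    simp only [Finset.mem_image, Finset.mem_Icc] at hp hp'
    obtain ⟨x, hx, rfl⟩ := hp
    obtain ⟨y, hy, hxy⟩ := hp'
    rw [Prod.mk.injEq] at hxy
    omega
  rw [Finset.sum_union hdisj, Finset.sum_image, Finset.sum_image] at hle
  · have key : ∀ x ∈ Finset.Icc (-(n : ℤ)) n, ((2 * n + 1 : ℕ) : ℝ) ^ (-α) ≤ J α (x - ((n : ℤ) + 1)) := by
      intro x hx
      rw [Finset.mem_Icc] at hx
      unfold J
      rw [if_neg (by omega)]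
      have h1 : ((|x - ((n : ℤ) + 1)| : ℤ) : ℝ) ≤ ((2 * n + 1 : ℕ) : ℝ) := by
        have : |x - ((n : ℤ) + 1)| ≤ ((2 * n + 1 : ℕ) : ℤ) := by
          rw [abs_le]; push_cast; omega
        exact_mod_cast this
      have h2 : (0 : ℝ) < ((|x - ((n : ℤ) + 1)| : ℤ) : ℝ) := by
        have : 0 < |x - ((n : ℤ) + 1)| := abs_pos.2 (by omega)
        exact_mod_cast this
      exact Real.rpow_le_rpow_of_nonpos h2 h1 (by linarith)
    unfold B
    have h1 : ∑ x ∈ Finset.Icc (-(n : ℤ)) n, ((2 * n + 1 : ℕ) : ℝ) ^ (-α) * (f x) ^ 2 ≤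
        ∑ x ∈ Finset.Icc (-(n : ℤ)) n, J α (x - ((n : ℤ) + 1)) * ((f x - f ((n : ℤ) + 1)) * (f x - f ((n : ℤ) + 1))) := by
      refine Finset.sum_le_sum (fun x hx => ?_)
      rw [hn1, sub_zero, ← sq]
      exact mul_le_mul_of_nonneg_right (key x hx) (sq_nonneg _)
    have h2 : ∑ x ∈ Finset.Icc (-(n : ℤ)) n, ((2 * n + 1 : ℕ) : ℝ) ^ (-α) * (f x) ^ 2 ≤
        ∑ x ∈ Finset.Icc (-(n : ℤ)) n, J α (((n : ℤ) + 1) - x) * ((f ((n : ℤ) + 1) - f x) * (f ((n : ℤ) + 1) - f x)) := by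
      refine Finset.sum_le_sum (fun x hx => ?_)
      rw [hn1, zero_sub, ← J_neg α, neg_sub]
      have := mul_le_mul_of_nonneg_right (key x hx) (sq_nonneg (f x))
      nlinarith
    rw [← Finset.mul_sum] at h1 h2
    dsimp only at hle
    linarith
  · intro x _ y _ h
    simpa using h
  · intro x _ y _ h
    simpa using h

end Pool.Agent.Q216.DG
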