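import Pool.Agent.Q216.DG.Basic

set_option autoImplicit false

/-!
# Gibbs sums of the integer-valued chain, integer shifts, Hammersley–Chapman–Robbins
-/

namespace Pool.Agent.Q216.DG

open Real

/-- integer configurations vanishing outside `{-n,…,n}` -/
def Conf (n : ℕ) : AddSubgroup (ℤ → ℤ) where
  carrier := {φ | ∀ x : ℤ, (n : ℤ) < |x| → φ x = 0}
  add_mem' := by
    intro a b ha hb x hx
    simp [ha x hx, hb x hx]
  zero_mem' := by intro x _; rfl
  neg_mem' := by
    intro a ha x hx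
    simp [ha x hx]

/-- the real-valued function of a configuration -/
def re {n : ℕ} (φ : Conf n) : ℤ → ℝ := fun x => (φ.1 x : ℝ)

lemma re_supp {n : ℕ} (φ : Conf n) : Supp n (re φ) := by
  intro x hx
  simp [re, φ.2 x hx]

lemma re_add {n : ℕ} (φ ψ : Conf n) : re (φ + ψ) = re φ + re ψ := by
  ext x; simp [re]

lemma re_sub {n : ℕ} (φ ψ : Conf n) : re (φ - ψ) = re φ - re ψ := by
  ext x; simp [re]

/-- Boltzmann weight -/
noncomputable def wt (α β : ℝ) {n : ℕ} (φ : Conf n) : ℝ :=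
  Real.exp (-β * B α (re φ) (re φ))

/-- partition function -/
noncomputable def Z (α β : ℝ) (n : ℕ) : ℝ := ∑' φ : Conf n, wt α β φ

/-- expectation -/
noncomputable def Ex (α β : ℝ) (n : ℕ) (F : Conf n → ℝ) : ℝ :=
  (∑' φ : Conf n, F φ * wt α β φ) / Z α β n

/-- variance of the height at the origin -/
noncomputable def Vr (α β : ℝ) (n : ℕ) : ℝ :=
  Ex α β n (fun φ => ((φ.1 0 : ℤ) : ℝ) ^ 2) - (Ex α β n (fun φ => ((φ.1 0 : ℤ) : ℝ))) ^ 2

/-! ### summability -/

lemma summable_int_gauss {c : ℝ} (hc : 0 < c) :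
    Summable fun k : ℤ => (1 + (k : ℝ) ^ 2) * Real.exp (-c * (k : ℝ) ^ 2) := by
  set m : ℝ := min 1 (c / 2) with hm
  have hm0 : 0 < m := lt_min one_pos (by positivity)
  have hm1 : m ≤ 1 := min_le_left _ _
  have hm2 : m ≤ c / 2 := min_le_right _ _
  have h1 : Summable fun k : ℤ => (if k = 0 then (1 : ℝ) else 0) + 1 / (k : ℝ) ^ 2 := by
    refine Summable.add ?_ ?_
    · refine summable_of_hasFiniteSupport ?_
      refine (Set.finite_singleton (0 : ℤ)).subset ?_
      intro k hk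
      rw [Function.mem_support] at hk
      by_contra h
      exact hk (if_neg h)
    · exact Real.summable_one_div_int_pow.2 (by norm_num)
  refine Summable.of_nonneg_of_le (fun k => by positivity) (fun k => ?_) (h1.mul_left (m⁻¹ ^ 2))
  have hk : 0 ≤ (k : ℝ) ^ 2 := sq_nonneg _
  set t : ℝ := (k : ℝ) ^ 2 with ht
  have h2 : m * (1 + t) ≤ Real.exp (c * t / 2) := by
    have := Real.add_one_le_exp (c * t / 2)
    nlinarith
  have h3 : m ^ 2 * (1 + t) ^ 2 ≤ Real.exp (c * t) := by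
    have h4 : Real.exp (c * t) = Real.exp (c * t / 2) ^ 2 := by
      rw [← Real.exp_nat_mul]; congr 1; push_cast; ring
    rw [h4, ← mul_pow]
    exact pow_le_pow_left₀ (by positivity) h2 2
  have h5 : (1 + t) * Real.exp (-c * t) ≤ m⁻¹ ^ 2 * (1 / (1 + t)) := by
    have h6 : Real.exp (-c * t) = (Real.exp (c * t))⁻¹ := by
      rw [← Real.exp_neg]; congr 1; ring
    rw [h6]
    have h7 : (0 : ℝ) < 1 + t := by linarith
    have h8 : (Real.exp (c * t))⁻¹ ≤ (m ^ 2 * (1 + t) ^ 2)⁻¹ :=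
      inv_anti₀ (by positivity) h3
    calc (1 + t) * (Real.exp (c * t))⁻¹ ≤ (1 + t) * (m ^ 2 * (1 + t) ^ 2)⁻¹ :=
          mul_le_mul_of_nonneg_left h8 h7.le
      _ = m⁻¹ ^ 2 * (1 / (1 + t)) := by field_simp
  refine h5.trans (mul_le_mul_of_nonneg_left ?_ (by positivity))
  by_cases hk0 : k = 0
  · subst hk0
    simp [ht]
  · rw [if_neg hk0, zero_add]
    have : (0 : ℝ) < t := by
      rw [ht]; have : (k : ℝ) ≠ 0 := by exact_mod_cast hk0
      positivity
    exact one_div_le_one_div_of_le this (by linarith)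

lemma summable_pi {f : ℤ → ℝ} (hf0 : ∀ k, 0 ≤ f k) (hf : Summable f) :
    ∀ m : ℕ, Summable fun v : Fin m → ℤ => ∏ i, f (v i) := by
  intro m
  induction m with
  | zero =>
    simp only [Finset.univ_eq_empty, Finset.prod_empty]
    exact Summable.of_finite
  | succ m ih =>
    have h1 : Summable fun q : ℤ × (Fin m → ℤ) => f q.1 * ∏ i, f (q.2 i) :=
      hf.mul_of_nonneg ih hf0 (fun v => Finset.prod_nonneg (fun i _ => hf0 _))
    have h2 := ((Fin.consEquiv (fun _ : Fin (m + 1) => ℤ)).symm.summable_iff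
      (f := fun q : ℤ × (Fin m → ℤ) => f q.1 * ∏ i, f (q.2 i))).2 h1
    refine h2.congr (fun v => ?_)
    rw [Fin.prod_univ_succ]
    rfl

/-- `Σ_φ Π (1+φ_x²) e^{-c φ_x²} < ∞` -/
lemma summable_conf {c : ℝ} (hc : 0 < c) (n : ℕ) :
    Summable fun φ : Conf n => ∏ x ∈ Finset.Icc (-(n : ℤ)) n,
      ((1 + ((φ.1 x : ℤ) : ℝ) ^ 2) * Real.exp (-c * ((φ.1 x : ℤ) : ℝ) ^ 2)) := by
  have h1 := summable_pi (f := fun k : ℤ => (1 + (k : ℝ) ^ 2) * Real.exp (-c * (k : ℝ) ^ 2))
    (fun k => by positivity) (summable_int_gauss hc) (2 * n + 1)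
  let e : Conf n → (Fin (2 * n + 1) → ℤ) := fun φ i => φ.1 ((i : ℤ) - n)
  have he : Function.Injective e := by
    intro φ ψ h
    apply Subtype.ext
    funext x
    by_cases hx : (n : ℤ) < |x|
    · rw [φ.2 x hx, ψ.2 x hx]
    · have hx' := abs_le.1 (not_lt.1 hx)
      have h2 := congrFun h ⟨(x + n).toNat, by omega⟩
      simp only [e] at h2
      have h3 : (((x + n).toNat : ℕ) : ℤ) = x + n := Int.toNat_of_nonneg (by omega)
      rw [h3] at h2
      simpa using h2
  refine (h1.comp_injective he).congr (fun φ => ?_)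
  simp only [Function.comp, e]
  symm
  refine Finset.prod_bij' (fun x _ => ⟨(x + n).toNat % (2 * n + 1), Nat.mod_lt _ (by omega)⟩)
    (fun i _ => (i : ℤ) - n) ?_ ?_ ?_ ?_ ?_
  · intro x _; exact Finset.mem_univ _
  · intro i _
    rw [Finset.mem_Icc]
    have := i.2
    omega
  · intro x hx
    rw [Finset.mem_Icc] at hx
    simp only
    rw [Nat.mod_eq_of_lt (by omega), Int.toNat_of_nonneg (by omega)]
    ring
  · intro i _
    apply Fin.ext
    simp only [sub_add_cancel, Int.toNat_natCast]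
    exact Nat.mod_eq_of_lt i.2
  · intro x hx
    rw [Finset.mem_Icc] at hx
    simp only
    rw [Nat.mod_eq_of_lt (by omega), Int.toNat_of_nonneg (by omega)]
    simp

lemma wt_pos (α β : ℝ) {n : ℕ} (φ : Conf n) : 0 < wt α β φ := Real.exp_pos _

lemma summable_wt_sq {α β : ℝ} (hα : 1 < α) (hβ : 0 < β) (n : ℕ) :
    Summable fun φ : Conf n => (1 + ((φ.1 0 : ℤ) : ℝ) ^ 2) * wt α β φ := by
  set c : ℝ := β * ((2 * n + 1 : ℕ) : ℝ) ^ (-α) with hc
  have hc0 : 0 < c := by positivity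
  refine Summable.of_nonneg_of_le (fun φ => by have := wt_pos α β φ; positivity) (fun φ => ?_)
    (summable_conf hc0 n)
  rw [Finset.prod_mul_distrib, ← Real.exp_sum, ← Finset.mul_sum]
  refine mul_le_mul ?_ ?_ (wt_pos α β φ).le (Finset.prod_nonneg (fun _ _ => by positivity))
  · have h0 : (0 : ℤ) ∈ Finset.Icc (-(n : ℤ)) n := by rw [Finset.mem_Icc]; constructor <;> omega
    rw [← Finset.mul_prod_erase _ _ h0]
    refine le_mul_of_one_le_right (by positivity) ?_
    refine Finset.one_le_prod ?_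
    intro x _
    have := sq_nonneg ((φ.1 x : ℤ) : ℝ)
    linarith
  · unfold wt
    apply Real.exp_le_exp.2
    have := B_coercive hα (re_supp φ)
    rw [hc]
    have h2 : ∑ x ∈ Finset.Icc (-(n : ℤ)) n, ((φ.1 x : ℤ) : ℝ) ^ 2 = ∑ x ∈ Finset.Icc (-(n : ℤ)) n, re φ x ^ 2 := rfl
    rw [h2]
    nlinarith

/-- a general summability criterion -/
lemma summable_mul_wt {α β : ℝ} (hα : 1 < α) (hβ : 0 < β) {n : ℕ} {F : Conf n → ℝ} (C : ℝ)
    (hF : ∀ φ : Conf n, |F φ| ≤ C * (1 + ((φ.1 0 : ℤ) : ℝ) ^ 2)) :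
    Summable fun φ : Conf n => F φ * wt α β φ := by
  refine Summable.of_norm_bounded (g := fun φ : Conf n => C * ((1 + ((φ.1 0 : ℤ) : ℝ) ^ 2) * wt α β φ))
    ((summable_wt_sq hα hβ n).mul_left C) (fun φ => ?_)
  rw [Real.norm_eq_abs, abs_mul, abs_of_pos (wt_pos α β φ), ← mul_assoc]
  exact mul_le_mul_of_nonneg_right (hF φ) (wt_pos α β φ).le

lemma summable_wt {α β : ℝ} (hα : 1 < α) (hβ : 0 < β) (n : ℕ) :
    Summable fun φ : Conf n => wt α β φ := by
  have := summable_mul_wt hα hβ (n := n) (F := fun _ => 1) 1 (fun φ => by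
    have := sq_nonneg ((φ.1 0 : ℤ) : ℝ)
    simp; positivity)
  simpa using this

lemma Z_pos {α β : ℝ} (hα : 1 < α) (hβ : 0 < β) (n : ℕ) : 0 < Z α β n :=
  (summable_wt hα hβ n).tsum_pos (fun φ => (wt_pos α β φ).le) 0 (wt_pos α β 0)

/-! ### integer shifts -/

/-- likelihood ratio of the measure shifted by `h` -/
noncomputable def Lk (α β : ℝ) {n : ℕ} (h φ : Conf n) : ℝ :=
  Real.exp (2 * β * B α (re h) (re φ) - β * B α (re h) (re h))

lemma wt_sub {α : ℝ} (hα : 1 < α) (β : ℝ) {n : ℕ} (h φ : Conf n) :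
    wt α β (φ - h) = Lk α β h φ * wt α β φ := by
  unfold wt Lk
  rw [← Real.exp_add, re_sub, B_sub_self hα (re_supp φ) (re_supp h)]
  congr 1
  ring

lemma Lk_mul {α : ℝ} (hα : 1 < α) (β : ℝ) {n : ℕ} (h h' φ : Conf n) :
    Lk α β h φ * Lk α β h' φ = Real.exp (2 * β * B α (re h) (re h')) * Lk α β (h + h') φ := by
  unfold Lk
  rw [← Real.exp_add, ← Real.exp_add, re_add, B_add_left hα (re_supp h) (re_supp h') (re_supp φ),
    B_add_left hα (re_supp h) (re_supp h') ((re_supp h).add (re_supp h')),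
    B_add_right hα (re_supp h) (re_supp h) (re_supp h'),
    B_add_right hα (re_supp h') (re_supp h) (re_supp h'), B_comm α (re h') (re h)]
  congr 1
  ring

lemma summable_shift {α : ℝ} (hα : 1 < α) (β : ℝ) {n : ℕ} (h : Conf n) (F : Conf n → ℝ) :
    (Summable fun φ : Conf n => F φ * (Lk α β h φ * wt α β φ)) ↔
      Summable fun φ : Conf n => F (φ + h) * wt α β φ := by
  rw [← (Equiv.addRight h).summable_iff]
  refine summable_congr (fun φ => ?_)
  simp only [Function.comp, Equiv.coe_addRight]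
  rw [← wt_sub hα, add_sub_cancel_right]

lemma tsum_shift {α : ℝ} (hα : 1 < α) (β : ℝ) {n : ℕ} (h : Conf n) (F : Conf n → ℝ) :
    ∑' φ : Conf n, F φ * (Lk α β h φ * wt α β φ) = ∑' φ : Conf n, F (φ + h) * wt α β φ := by
  rw [← (Equiv.addRight h).tsum_eq]
  refine tsum_congr (fun φ => ?_)
  simp only [Equiv.coe_addRight]
  rw [← wt_sub hα, add_sub_cancel_right]

lemma hs_congr {κ : Type*} {f g : κ → ℝ} {a b : ℝ} (h : HasSum f a) (h1 : ∀ x, g x = f x)
    (h2 : b = a) : HasSum g b := by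
  have : g = f := funext h1
  rw [this, h2]
  exact h

/-- **Hammersley–Chapman–Robbins inequality for integer shifts.** -/
theorem hcr {α β : ℝ} (hα : 1 < α) (hβ : 0 < β) {n : ℕ} {ι : Type*} (s : Finset ι)
    (hs : s.Nonempty) (h : ι → Conf n) (h0 : ∀ i ∈ s, (h i).1 0 = 1) (S : ℝ) (hS : 0 < S)
    (hR : (∑ i ∈ s, ∑ j ∈ s, Real.exp (2 * β * B α (re (h i)) (re (h j)))) / (s.card : ℝ) ^ 2 - 1 ≤ S) :
    1 / S ≤ Vr α β n := by
  classical
  set N : ℝ := (s.card : ℝ) with hN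
  have hN0 : 0 < N := by
    rw [hN]; exact_mod_cast hs.card_pos
  set R : ℝ := (∑ i ∈ s, ∑ j ∈ s, Real.exp (2 * β * B α (re (h i)) (re (h j)))) / N ^ 2 with hRdef
  have hZ := Z_pos hα hβ n
  set m : ℝ := Ex α β n (fun φ => ((φ.1 0 : ℤ) : ℝ)) with hm
  set t : ℝ := 1 / S with ht
  have ht0 : 0 < t := by positivity
  -- summability facts
  have hsum1 : Summable fun φ : Conf n => ((φ.1 0 : ℤ) : ℝ) * wt α β φ :=
    summable_mul_wt hα hβ 1 (fun φ => by
      have := sq_nonneg (|((φ.1 0 : ℤ) : ℝ)| - 1)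
      have h2 := sq_abs ((φ.1 0 : ℤ) : ℝ)
      nlinarith [abs_nonneg ((φ.1 0 : ℤ) : ℝ)])
  have hsum2 : Summable fun φ : Conf n => ((φ.1 0 : ℤ) : ℝ) ^ 2 * wt α β φ :=
    summable_mul_wt hα hβ 1 (fun φ => by
      rw [abs_of_nonneg (sq_nonneg _)]; linarith)
  have hsum0 := summable_wt hα hβ n
  have e1 : ∑' φ : Conf n, ((φ.1 0 : ℤ) : ℝ) * wt α β φ = m * Z α β n := by
    rw [hm]; unfold Ex; field_simp
  have e2 : ∑' φ : Conf n, ((φ.1 0 : ℤ) : ℝ) ^ 2 * wt α β φ = (Vr α β n + m ^ 2) * Z α β n := by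
    rw [hm]; unfold Vr Ex; field_simp; ring
  have e0 : ∑' φ : Conf n, wt α β φ = Z α β n := rfl
  -- A
  let A : Conf n → ℝ := fun φ => (∑ i ∈ s, Lk α β (h i) φ) / N
  -- linear terms
  have lin : ∀ a b : ℝ, HasSum (fun φ : Conf n => (a * ((φ.1 0 : ℤ) : ℝ) + b) * wt α β φ)
      ((a * m + b) * Z α β n) := by
    intro a b
    have h1 := (hsum1.hasSum.mul_left a).add (hsum0.hasSum.mul_left b)
    rw [e1, e0] at h1
    refine hs_congr h1 (fun φ => ?_) ?_
    · ring
    · ring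
  have linL : ∀ i ∈ s, ∀ a b : ℝ, HasSum (fun φ : Conf n => (a * ((φ.1 0 : ℤ) : ℝ) + b) *
      (Lk α β (h i) φ * wt α β φ)) ((a * (m + 1) + b) * Z α β n) := by
    intro i hi a b
    have h1 : HasSum (fun φ : Conf n => (a * (((φ + h i).1 0 : ℤ) : ℝ) + b) * wt α β φ)
        ((a * (m + 1) + b) * Z α β n) := by
      have := lin a (a + b)
      refine hs_congr this (fun φ => ?_) ?_
      · have : (((φ + h i).1 0 : ℤ) : ℝ) = ((φ.1 0 : ℤ) : ℝ) + 1 := by
          have h2 : (φ + h i).1 0 = φ.1 0 + (h i).1 0 := rfl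
          rw [h2, h0 i hi]; push_cast; ring
        rw [this]; ring
      · ring
    have hsm := (summable_shift hα β (h i) (fun φ : Conf n => a * ((φ.1 0 : ℤ) : ℝ) + b)).2 h1.summable
    have := tsum_shift hα β (h i) (fun φ : Conf n => a * ((φ.1 0 : ℤ) : ℝ) + b)
    rw [h1.tsum_eq] at this
    rw [← this]
    exact hsm.hasSum
  have quad : ∀ i ∈ s, ∀ j ∈ s, HasSum (fun φ : Conf n => Lk α β (h i) φ * Lk α β (h j) φ * wt α β φ)
      (Real.exp (2 * β * B α (re (h i)) (re (h j))) * Z α β n) := by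
    intro i hi j hj
    have h1 : HasSum (fun φ : Conf n => (1 : ℝ) * (Lk α β (h i + h j) φ * wt α β φ)) (Z α β n) := by
      have hsm := (summable_shift hα β (h i + h j) (fun _ : Conf n => (1 : ℝ))).2 (by simpa using hsum0)
      have := tsum_shift hα β (h i + h j) (fun _ : Conf n => (1 : ℝ))
      have h3 : ∑' φ : Conf n, (1 : ℝ) * wt α β φ = Z α β n := by simp [Z]
      rw [h3] at this
      rw [← this]
      exact hsm.hasSum
    have h2 := h1.mul_left (Real.exp (2 * β * B α (re (h i)) (re (h j))))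
    refine hs_congr h2 (fun φ => ?_) rfl
    rw [Lk_mul hα]
    ring
  -- total
  have tot : HasSum (fun φ : Conf n => (((φ.1 0 : ℤ) : ℝ) - m + t - t * A φ) ^ 2 * wt α β φ)
      ((Vr α β n - 2 * t + t ^ 2 * (R - 1)) * Z α β n) := by
    have p1 : HasSum (fun φ : Conf n => (((φ.1 0 : ℤ) : ℝ) - m + t) ^ 2 * wt α β φ)
        ((Vr α β n + t ^ 2) * Z α β n) := by
      have h1 := (hsum2.hasSum).add (lin (2 * (t - m)) ((t - m) ^ 2))
      rw [e2] at h1
      refine hs_congr h1 (fun φ => ?_) ?_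
      · ring
      · ring
    have p2 : HasSum (fun φ : Conf n => (((φ.1 0 : ℤ) : ℝ) - m + t) * A φ * wt α β φ)
        ((1 + t) * Z α β n) := by
      have h1 := (hasSum_sum (fun i hi => linL i hi 1 (t - m))).mul_left (1 / N)
      refine hs_congr h1 (fun φ => ?_) ?_
      · simp only [A]
        rw [← Finset.mul_sum, ← Finset.sum_mul]
        ring
      · rw [Finset.sum_const, nsmul_eq_mul, ← hN]
        field_simp
        ring
    have p3 : HasSum (fun φ : Conf n => A φ ^ 2 * wt α β φ) (R * Z α β n) := by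
      have h1 := (hasSum_sum (fun i hi => hasSum_sum (fun j hj => quad i hi j hj))).mul_left (1 / N ^ 2)
      refine hs_congr h1 (fun φ => ?_) ?_
      · simp only [A]
        have : ∑ i ∈ s, ∑ j ∈ s, Lk α β (h i) φ * Lk α β (h j) φ * wt α β φ =
            (∑ i ∈ s, Lk α β (h i) φ) ^ 2 * wt α β φ := by
          rw [sq, Finset.sum_mul_sum, Finset.sum_mul]
          refine Finset.sum_congr rfl (fun i _ => ?_)
          rw [Finset.sum_mul]
        rw [this]
        ring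
      · rw [hRdef]
        simp only [← Finset.sum_mul]
        ring
    have h1 := (p1.add (p2.mul_left (-2 * t))).add (p3.mul_left (t ^ 2))
    refine hs_congr h1 (fun φ => ?_) ?_
    · ring
    · ring
  have hnn : 0 ≤ (Vr α β n - 2 * t + t ^ 2 * (R - 1)) * Z α β n :=
    tot.nonneg (fun φ => mul_nonneg (sq_nonneg _) (wt_pos α β φ).le)
  have hnn2 : 0 ≤ Vr α β n - 2 * t + t ^ 2 * (R - 1) := by
    by_contra hcon
    push Not at hcon
    have := mul_neg_of_neg_of_pos hcon hZ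
    linarith
  have h3 : t ^ 2 * (R - 1) ≤ t ^ 2 * S := mul_le_mul_of_nonneg_left hR (sq_nonneg _)
  have h4 : t ^ 2 * S = t := by rw [ht]; field_simp
  linarith

end Pool.Agent.Q216.DG
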