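import Pool.Agent.Q216.DG.Gibbs

set_option autoImplicit false

/-!
# Mutual energies of intervals
-/

namespace Pool.Agent.Q216.DG

open Real

/-- telescoping bound: `x^{-p} ≤ 2^p/(p-1) (x^{1-p} - (x+1)^{1-p})` for `x ≥ 1`, `p > 1`. -/
lemma rpow_tele {p : ℝ} (hp : 1 < p) {x : ℝ} (hx : 1 ≤ x) :
    x ^ (-p) ≤ 2 ^ p / (p - 1) * (x ^ (1 - p) - (x + 1) ^ (1 - p)) := by
  have hx0 : 0 < x := by linarith
  -- mean value theorem
  have hd : ∀ y ∈ Set.Ioo x (x + 1), HasDerivAt (fun y : ℝ => y ^ (1 - p)) ((1 - p) * y ^ (1 - p - 1)) y := by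
    intro y hy
    exact Real.hasDerivAt_rpow_const (Or.inl (by linarith [hy.1]))
  have hc : ContinuousOn (fun y : ℝ => y ^ (1 - p)) (Set.Icc x (x + 1)) := by
    intro y hy
    exact (Real.continuousAt_rpow_const y (1 - p) (Or.inl (by linarith [hy.1]))).continuousWithinAt
  obtain ⟨c, hc1, hc2⟩ := exists_hasDerivAt_eq_slope (fun y : ℝ => y ^ (1 - p))
    (fun y => (1 - p) * y ^ (1 - p - 1)) (by linarith : x < x + 1) hc hd
  simp only [add_sub_cancel_left, div_one] at hc2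
  have h1 : x ^ (1 - p) - (x + 1) ^ (1 - p) = (p - 1) * c ^ (-p) := by
    have : (1 - p - 1) = -p := by ring
    rw [this] at hc2
    linarith
  rw [h1]
  have hc0 : 0 < c := by linarith [hc1.1]
  have h2 : c ≤ 2 * x := by linarith [hc1.2]
  have h3 : (2 * x) ^ (-p) ≤ c ^ (-p) := Real.rpow_le_rpow_of_nonpos hc0 h2 (by linarith)
  have h4 : (2 * x) ^ (-p) = (2 ^ p)⁻¹ * x ^ (-p) := by
    rw [Real.mul_rpow (by norm_num) hx0.le, Real.rpow_neg (by norm_num)]
  rw [h4] at h3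
  have h5 : (0 : ℝ) < 2 ^ p := by positivity
  have h6 : 2 ^ p / (p - 1) * ((p - 1) * c ^ (-p)) = 2 ^ p * c ^ (-p) := by
    have : p - 1 ≠ 0 := by linarith
    field_simp
  rw [h6]
  calc x ^ (-p) = 2 ^ p * ((2 ^ p)⁻¹ * x ^ (-p)) := by field_simp
    _ ≤ 2 ^ p * c ^ (-p) := mul_le_mul_of_nonneg_left h3 h5.le

/-- `u_r(k) = (k + r + 1)^{-p}` -/
lemma tail_sum {p : ℝ} (hp : 1 < p) (r : ℕ) :
    Summable (fun k : ℕ => ((k : ℝ) + r + 1) ^ (-p)) ∧
      ∑' k : ℕ, ((k : ℝ) + r + 1) ^ (-p) ≤ 2 ^ p / (p - 1) * ((r : ℝ) + 1) ^ (1 - p) := by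
  have hb : ∀ m : ℕ, ∑ k ∈ Finset.range m, ((k : ℝ) + r + 1) ^ (-p) ≤
      2 ^ p / (p - 1) * ((r : ℝ) + 1) ^ (1 - p) := by
    intro m
    have h1 : ∀ m : ℕ, ∑ k ∈ Finset.range m, ((k : ℝ) + r + 1) ^ (-p) ≤
        2 ^ p / (p - 1) * (((r : ℝ) + 1) ^ (1 - p) - ((m : ℝ) + r + 1) ^ (1 - p)) := by
      intro m
      induction m with
      | zero => simp
      | succ m ih =>
        rw [Finset.sum_range_succ]
        have := rpow_tele hp (x := (m : ℝ) + r + 1) (by have h1 : (0:ℝ) ≤ m := Nat.cast_nonneg m; have h2 : (0:ℝ) ≤ r := Nat.cast_nonneg r; linarith)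
        push_cast
        have h2 : (m : ℝ) + 1 + r + 1 = (m : ℝ) + r + 1 + 1 := by ring
        rw [h2]
        have h3 : 2 ^ p / (p - 1) * (((r : ℝ) + 1) ^ (1 - p) - ((m : ℝ) + r + 1 + 1) ^ (1 - p)) =
          2 ^ p / (p - 1) * (((r : ℝ) + 1) ^ (1 - p) - ((m : ℝ) + r + 1) ^ (1 - p)) +
          2 ^ p / (p - 1) * (((m : ℝ) + r + 1) ^ (1 - p) - ((m : ℝ) + r + 1 + 1) ^ (1 - p)) := by ring
        rw [h3]
        linarith
    refine (h1 m).trans ?_
    have h5 : (0 : ℝ) < 2 ^ p / (p - 1) := div_pos (by positivity) (by linarith)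
    refine mul_le_mul_of_nonneg_left ?_ h5.le
    have : 0 ≤ ((m : ℝ) + r + 1) ^ (1 - p) := by positivity
    linarith
  refine ⟨summable_of_sum_range_le (fun k => by positivity) hb, ?_⟩
  exact Real.tsum_le_of_sum_range_le (fun k => by positivity) hb

/-- constant in the energy bounds -/
noncomputable def C1 (α : ℝ) : ℝ := (2 ^ (α / 2) / (α / 2 - 1)) ^ 2

/-- bound for the mutual energy of two half lines at distance `r` -/
noncomputable def Vb (α : ℝ) (r : ℕ) : ℝ := C1 α * ((r : ℝ) + 1) ^ (2 - α)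

lemma C1_pos {α : ℝ} (hα : 2 < α) : 0 < C1 α := by
  unfold C1
  have : 0 < α / 2 - 1 := by linarith
  positivity

lemma Vb_pos {α : ℝ} (hα : 2 < α) (r : ℕ) : 0 < Vb α r := by
  unfold Vb
  have := C1_pos hα
  positivity

/-- the interaction of `x < -M` with `y ≥ -m`, `m ≤ M` -/
lemma half_line {α : ℝ} (hα : 2 < α) (a b : ℤ) (r : ℕ) (hab : b - a = r) :
    Summable (fun p : ℤ × ℤ => if p.1 < a ∧ b ≤ p.2 then J α (p.1 - p.2) else 0) ∧
      ∑' p : ℤ × ℤ, (if p.1 < a ∧ b ≤ p.2 then J α (p.1 - p.2) else 0) ≤ Vb α r := by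
  set D : ℤ × ℤ → ℝ := fun p => if p.1 < a ∧ b ≤ p.2 then J α (p.1 - p.2) else 0 with hD
  let e : ℕ × ℕ → ℤ × ℤ := fun q => (a - 1 - q.1, b + q.2)
  have he : Function.Injective e := by
    intro q q' h
    simp only [e, Prod.mk.injEq] at h
    ext
    · have := h.1; omega
    · have := h.2; omega
  have hsupp : ∀ x ∉ Set.range e, D x = 0 := by
    intro x hx
    simp only [hD]
    rw [if_neg]
    intro hcon
    apply hx
    refine ⟨((a - 1 - x.1).toNat, (x.2 - b).toNat), ?_⟩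
    simp only [e]
    ext
    · simp only; omega
    · simp only; omega
  have hp : 1 < α / 2 := by linarith
  obtain ⟨hs, ht⟩ := tail_sum hp r
  -- bound
  have hbd : ∀ q : ℕ × ℕ, D (e q) ≤ ((q.1 : ℝ) + r + 1) ^ (-(α / 2)) * ((q.2 : ℝ) + r + 1) ^ (-(α / 2)) := by
    intro q
    have h1 : D (e q) = J α ((e q).1 - (e q).2) := by
      simp only [hD, e]
      rw [if_pos]
      constructor
      · omega
      · omega
    rw [h1]
    have h2 : (e q).1 - (e q).2 = -((q.1 : ℤ) + q.2 + 1 + r) := by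
      simp only [e]; omega
    rw [h2, J_neg]
    unfold J
    rw [if_neg (by omega)]
    have h3 : ((|(q.1 : ℤ) + q.2 + 1 + r| : ℤ) : ℝ) = (q.1 : ℝ) + q.2 + 1 + r := by
      rw [abs_of_nonneg (by positivity)]; push_cast; ring
    rw [h3]
    have hq1 : (0 : ℝ) ≤ q.1 := Nat.cast_nonneg _
    have hq2 : (0 : ℝ) ≤ q.2 := Nat.cast_nonneg _
    have hr : (0 : ℝ) ≤ r := Nat.cast_nonneg _
    set A : ℝ := (q.1 : ℝ) + r + 1 with hA
    set B' : ℝ := (q.2 : ℝ) + r + 1 with hB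
    have hA0 : 0 < A := by rw [hA]; linarith
    have hB0 : 0 < B' := by rw [hB]; linarith
    rw [← Real.mul_rpow hA0.le hB0.le]
    have h4 : A * B' ≤ ((q.1 : ℝ) + q.2 + 1 + r) ^ 2 := by
      have h5 : A + B' ≤ 2 * ((q.1 : ℝ) + q.2 + 1 + r) := by rw [hA, hB]; linarith
      nlinarith [sq_nonneg (A - B')]
    have h5 : ((q.1 : ℝ) + q.2 + 1 + r) ^ (-α) = (((q.1 : ℝ) + q.2 + 1 + r) ^ 2) ^ (-(α / 2)) := by
      rw [← Real.rpow_natCast, ← Real.rpow_mul (by positivity)]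
      congr 1
      push_cast; ring
    rw [h5]
    exact Real.rpow_le_rpow_of_nonpos (by positivity) h4 (by linarith)
  have hD0 : ∀ x, 0 ≤ D x := by
    intro x; simp only [hD]; split_ifs
    · exact J_nonneg _ _
    · exact le_rfl
  have hsm2 : Summable fun q : ℕ × ℕ => ((q.1 : ℝ) + r + 1) ^ (-(α / 2)) * ((q.2 : ℝ) + r + 1) ^ (-(α / 2)) :=
    hs.mul_of_nonneg hs (fun k => by positivity) (fun k => by positivity)
  have hsm3 : Summable fun q : ℕ × ℕ => D (e q) :=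
    Summable.of_nonneg_of_le (fun q => hD0 _) hbd hsm2
  have hsm : Summable D := (he.summable_iff hsupp).1 hsm3
  refine ⟨hsm, ?_⟩
  have h6 : ∑' p, D p = ∑' q, D (e q) := (he.tsum_eq (by
    intro x hx
    by_contra h
    exact hx (hsupp x h))).symm
  have h7 : ∑' q : ℕ × ℕ, D (e q) ≤ ∑' q : ℕ × ℕ, ((q.1 : ℝ) + r + 1) ^ (-(α / 2)) * ((q.2 : ℝ) + r + 1) ^ (-(α / 2)) :=
    hsm3.tsum_le_tsum hbd hsm2
  have h8 : ∑' q : ℕ × ℕ, ((q.1 : ℝ) + r + 1) ^ (-(α / 2)) * ((q.2 : ℝ) + r + 1) ^ (-(α / 2)) =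
      (∑' k : ℕ, ((k : ℝ) + r + 1) ^ (-(α / 2))) * (∑' k : ℕ, ((k : ℝ) + r + 1) ^ (-(α / 2))) :=
    (hs.tsum_mul_tsum hs hsm2).symm
  have h9 : 0 ≤ ∑' k : ℕ, ((k : ℝ) + r + 1) ^ (-(α / 2)) := tsum_nonneg (fun k => by positivity)
  change ∑' p, D p ≤ Vb α r
  rw [h6]
  refine h7.trans ?_
  rw [h8]
  have h10 : Vb α r = (2 ^ (α / 2) / (α / 2 - 1) * ((r : ℝ) + 1) ^ (1 - α / 2)) *
      (2 ^ (α / 2) / (α / 2 - 1) * ((r : ℝ) + 1) ^ (1 - α / 2)) := by
    unfold Vb C1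
    have : ((r : ℝ) + 1) ^ (2 - α) = ((r : ℝ) + 1) ^ (1 - α / 2) * ((r : ℝ) + 1) ^ (1 - α / 2) := by
      rw [← Real.rpow_add (by positivity)]; congr 1; ring
    rw [this]; ring
  rw [h10]
  exact mul_le_mul ht ht h9 (h9.trans ht)

/-- the indicator of the integer interval `{-i,…,j}` -/
def ind (i j : ℕ) : ℤ → ℤ := fun x => if -(i : ℤ) ≤ x ∧ x ≤ j then 1 else 0

lemma ind_mem {n i j : ℕ} (hi : i ≤ n) (hj : j ≤ n) : ind i j ∈ Conf n := by
  intro x hx
  unfold ind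
  rw [if_neg]
  intro h
  have : |x| ≤ n := by rw [abs_le]; constructor <;> omega
  omega

lemma ind01 (a b : ℕ) (z : ℤ) : ind a b z = 0 ∨ ind a b z = 1 := by
  unfold ind; split_ifs <;> simp

lemma sgn4 {a b c d : ℤ} (ha : a = 0 ∨ a = 1) (hb : b = 0 ∨ b = 1) (hc : c = 0 ∨ c = 1)
    (hd : d = 0 ∨ d = 1)
    (h : ¬ ((a = 0 ∧ b = 1 ∧ c = 0 ∧ d = 1) ∨ (a = 1 ∧ b = 0 ∧ c = 1 ∧ d = 0))) :
    ((a : ℝ) - b) * ((c : ℝ) - d) ≤ 0 := by
  have : (a - b) * (c - d) ≤ 0 := by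
    rcases ha with rfl | rfl <;> rcases hb with rfl | rfl <;> rcases hc with rfl | rfl <;>
      rcases hd with rfl | rfl <;> revert h <;> decide
  exact_mod_cast this

/-- **Mutual energy of two intervals around the origin.** -/
lemma B_ind {α : ℝ} (hα : 2 < α) (i j i' j' : ℕ) :
    B α (fun x => (ind i j x : ℝ)) (fun x => (ind i' j' x : ℝ)) ≤
      Vb α (Int.natAbs ((i : ℤ) - i')) + Vb α (Int.natAbs ((j : ℤ) - j')) := by
  set n : ℕ := i + j + i' + j' with hn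
  have hS1 : Supp n (fun x => (ind i j x : ℝ)) := by
    intro x hx
    have := ind_mem (n := n) (i := i) (j := j) (by omega) (by omega) x hx
    simp [this]
  have hS2 : Supp n (fun x => (ind i' j' x : ℝ)) := by
    intro x hx
    have := ind_mem (n := n) (i := i') (j := j') (by omega) (by omega) x hx
    simp [this]
  have hsB := B_summable (by linarith : 1 < α) hS1 hS2
  obtain ⟨hs1, ht1⟩ := half_line hα (-(max i i' : ℤ)) (-(min i i' : ℤ)) (Int.natAbs ((i : ℤ) - i')) (by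
    rcases le_total (i : ℤ) i' with h | h
    · rw [max_eq_right h, min_eq_left h]; omega
    · rw [max_eq_left h, min_eq_right h]; omega)
  obtain ⟨hs2, ht2⟩ := half_line hα ((min j j' : ℤ) + 1) ((max j j' : ℤ) + 1) (Int.natAbs ((j : ℤ) - j')) (by
    rcases le_total (j : ℤ) j' with h | h
    · rw [max_eq_right h, min_eq_left h]; omega
    · rw [max_eq_left h, min_eq_right h]; omega)
  set P : ℤ × ℤ → ℝ := fun p => if p.1 < -(max i i' : ℤ) ∧ -(min i i' : ℤ) ≤ p.2 then J α (p.1 - p.2) else 0 with hP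
  set Q : ℤ × ℤ → ℝ := fun p => if p.1 < (min j j' : ℤ) + 1 ∧ (max j j' : ℤ) + 1 ≤ p.2 then J α (p.1 - p.2) else 0 with hQ
  have hsw1 : Summable fun p : ℤ × ℤ => P p.swap := (Equiv.prodComm ℤ ℤ).summable_iff.2 hs1
  have hsw2 : Summable fun p : ℤ × ℤ => Q p.swap := (Equiv.prodComm ℤ ℤ).summable_iff.2 hs2
  have hts1 : ∑' p : ℤ × ℤ, P p.swap = ∑' p, P p := (Equiv.prodComm ℤ ℤ).tsum_eq P
  have hts2 : ∑' p : ℤ × ℤ, Q p.swap = ∑' p, Q p := (Equiv.prodComm ℤ ℤ).tsum_eq Q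
  have hP0 : ∀ p, 0 ≤ P p := by
    intro p; simp only [hP]; split_ifs
    · exact J_nonneg _ _
    · exact le_rfl
  have hQ0 : ∀ p, 0 ≤ Q p := by
    intro p; simp only [hQ]; split_ifs
    · exact J_nonneg _ _
    · exact le_rfl
  have key : ∀ p : ℤ × ℤ, J α (p.1 - p.2) * (((ind i j p.1 : ℝ) - (ind i j p.2 : ℝ)) *
      ((ind i' j' p.1 : ℝ) - (ind i' j' p.2 : ℝ))) ≤ P p + P p.swap + (Q p + Q p.swap) := by
    rintro ⟨x, y⟩
    have hJ := J_nonneg α (x - y)
    have hJ2 : J α (y - x) = J α (x - y) := by rw [← J_neg α (x - y)]; congr 1; ring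
    have a1 := hP0 (x, y)
    have a2 := hP0 (y, x)
    have a3 := hQ0 (x, y)
    have a4 := hQ0 (y, x)
    simp only [Prod.swap]
    -- four cases
    by_cases hc : (ind i j x = 0 ∧ ind i j y = 1 ∧ ind i' j' x = 0 ∧ ind i' j' y = 1) ∨
      (ind i j x = 1 ∧ ind i j y = 0 ∧ ind i' j' x = 1 ∧ ind i' j' y = 0)
    · rcases hc with ⟨h1, h2, h3, h4⟩ | ⟨h1, h2, h3, h4⟩
      · rw [h1, h2, h3, h4]
        norm_num
        unfold ind at h1 h2 h3 h4
        have h1' : ¬ (-(i : ℤ) ≤ x ∧ x ≤ j) := by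
          intro h; rw [if_pos h] at h1; omega
        have h2' : (-(i : ℤ) ≤ y ∧ y ≤ j) := by
          by_contra h; rw [if_neg h] at h2; omega
        have h3' : ¬ (-(i' : ℤ) ≤ x ∧ x ≤ j') := by
          intro h; rw [if_pos h] at h3; omega
        have h4' : (-(i' : ℤ) ≤ y ∧ y ≤ j') := by
          by_contra h; rw [if_neg h] at h4; omega
        by_cases hx : x < 0
        · have : P (x, y) = J α (x - y) := by
            simp only [hP]
            rw [if_pos]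
            rw [lt_neg, max_lt_iff, neg_le, le_min_iff]
            omega
          linarith
        · have : Q (y, x) = J α (y - x) := by
            simp only [hQ]
            rw [if_pos]
            rw [Int.lt_add_one_iff, le_min_iff, Int.add_one_le_iff, max_lt_iff]
            omega
          linarith
      · rw [h1, h2, h3, h4]
        norm_num
        unfold ind at h1 h2 h3 h4
        have h1' : (-(i : ℤ) ≤ x ∧ x ≤ j) := by
          by_contra h; rw [if_neg h] at h1; omega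
        have h2' : ¬ (-(i : ℤ) ≤ y ∧ y ≤ j) := by
          intro h; rw [if_pos h] at h2; omega
        have h3' : (-(i' : ℤ) ≤ x ∧ x ≤ j') := by
          by_contra h; rw [if_neg h] at h3; omega
        have h4' : ¬ (-(i' : ℤ) ≤ y ∧ y ≤ j') := by
          intro h; rw [if_pos h] at h4; omega
        by_cases hy : y < 0
        · have : P (y, x) = J α (y - x) := by
            simp only [hP]
            rw [if_pos]
            rw [lt_neg, max_lt_iff, neg_le, le_min_iff]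
            omega
          linarith
        · have : Q (x, y) = J α (x - y) := by
            simp only [hQ]
            rw [if_pos]
            rw [Int.lt_add_one_iff, le_min_iff, Int.add_one_le_iff, max_lt_iff]
            omega
          linarith
    · have hle : (((ind i j x : ℝ) - (ind i j y : ℝ)) * ((ind i' j' x : ℝ) - (ind i' j' y : ℝ))) ≤ 0 :=
        sgn4 (ind01 _ _ _) (ind01 _ _ _) (ind01 _ _ _) (ind01 _ _ _) hc
      have := mul_nonpos_of_nonneg_of_nonpos hJ hle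
      linarith
  have hsR : Summable fun p : ℤ × ℤ => P p + P p.swap + (Q p + Q p.swap) :=
    (hs1.add hsw1).add (hs2.add hsw2)
  have h5 := hsB.tsum_le_tsum key hsR
  rw [(hs1.add hsw1).tsum_add (hs2.add hsw2), hs1.tsum_add hsw1, hs2.tsum_add hsw2, hts1, hts2] at h5
  unfold B
  linarith

end Pool.Agent.Q216.DG
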