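import Pool.Agent.Q216.DG.Interval

set_option autoImplicit false

/-!
# Optimal-order delocalisation at all temperatures
-/

namespace Pool.Agent.Q216.DG

open Real

/-- `Σ_{r<N} (r+1)^{-s} ≤ N^{1-s}/(1-s)` for `0<s<1`. -/
lemma sum_rpow {s : ℝ} (hs0 : 0 < s) (hs1 : s < 1) (N : ℕ) :
    ∑ r ∈ Finset.range N, ((r : ℝ) + 1) ^ (-s) ≤ (N : ℝ) ^ (1 - s) / (1 - s) := by
  induction N with
  | zero =>
    simp only [Finset.range_zero, Finset.sum_empty, Nat.cast_zero]
    have : (0 : ℝ) ^ (1 - s) = 0 := Real.zero_rpow (by linarith)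
    rw [this]; simp
  | succ N ih =>
    rw [Finset.sum_range_succ]
    have hN : (0 : ℝ) ≤ N := Nat.cast_nonneg N
    have key : ((N : ℝ) + 1) ^ (-s) ≤ ((N : ℝ) + 1) ^ (1 - s) / (1 - s) - (N : ℝ) ^ (1 - s) / (1 - s) := by
      have hd : ∀ y ∈ Set.Ioo (N : ℝ) (N + 1), HasDerivAt (fun y : ℝ => y ^ (1 - s)) ((1 - s) * y ^ (1 - s - 1)) y := by
        intro y hy
        exact Real.hasDerivAt_rpow_const (Or.inl (by linarith [hy.1]))
      have hc : ContinuousOn (fun y : ℝ => y ^ (1 - s)) (Set.Icc (N : ℝ) (N + 1)) := by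
        intro y hy
        exact (Real.continuousAt_rpow_const y (1 - s) (Or.inr (by linarith))).continuousWithinAt
      obtain ⟨c, hc1, hc2⟩ := exists_hasDerivAt_eq_slope (fun y : ℝ => y ^ (1 - s))
        (fun y => (1 - s) * y ^ (1 - s - 1)) (by linarith : (N : ℝ) < N + 1) hc hd
      simp only [add_sub_cancel_left, div_one] at hc2
      have h1 : (1 - s - 1) = -s := by ring
      rw [h1] at hc2
      have hc0 : 0 < c := by linarith [hc1.1]
      have h2 : ((N : ℝ) + 1) ^ (-s) ≤ c ^ (-s) :=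
        Real.rpow_le_rpow_of_nonpos hc0 hc1.2.le (by linarith)
      rw [← sub_div, ← hc2]
      have h3 : (1 - s) * c ^ (-s) / (1 - s) = c ^ (-s) := by
        have : (1 - s) ≠ 0 := by linarith
        field_simp
      rw [h3]; exact h2
    push_cast
    linarith

lemma double_sum (F : ℕ → ℝ) (hF : ∀ r, 0 ≤ F r) (N : ℕ) :
    ∑ i ∈ Finset.range N, ∑ j ∈ Finset.range N, F (Int.natAbs ((i : ℤ) - j)) ≤
      2 * N * ∑ r ∈ Finset.range N, F r := by
  have h : ∀ i ∈ Finset.range N, ∑ j ∈ Finset.range N, F (Int.natAbs ((i : ℤ) - j)) ≤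
      2 * ∑ r ∈ Finset.range N, F r := by
    intro i hi
    rw [Finset.mem_range] at hi
    have h1 : ∑ j ∈ Finset.range N, F (Int.natAbs ((i : ℤ) - j)) =
        ∑ j ∈ (Finset.range N).filter (fun j => j ≤ i), F (Int.natAbs ((i : ℤ) - j)) +
        ∑ j ∈ (Finset.range N).filter (fun j => ¬ j ≤ i), F (Int.natAbs ((i : ℤ) - j)) :=
      (Finset.sum_filter_add_sum_filter_not _ _ _).symm
    have h2 : ∑ j ∈ (Finset.range N).filter (fun j => j ≤ i), F (Int.natAbs ((i : ℤ) - j)) ≤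
        ∑ r ∈ Finset.range N, F r := by
      rw [← Finset.sum_image (s := (Finset.range N).filter (fun j => j ≤ i)) (f := F)
        (g := fun j : ℕ => Int.natAbs ((i : ℤ) - j))]
      · refine Finset.sum_le_sum_of_subset_of_nonneg ?_ (fun _ _ _ => hF _)
        intro r hr
        simp only [Finset.mem_image, Finset.mem_filter, Finset.mem_range] at hr ⊢
        obtain ⟨j, hj, rfl⟩ := hr
        omega
      · intro a ha b hb hab
        simp only [Finset.coe_filter, Set.mem_setOf_eq, Finset.mem_range] at ha hb hab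
        omega
    have h3 : ∑ j ∈ (Finset.range N).filter (fun j => ¬ j ≤ i), F (Int.natAbs ((i : ℤ) - j)) ≤
        ∑ r ∈ Finset.range N, F r := by
      rw [← Finset.sum_image (s := (Finset.range N).filter (fun j => ¬ j ≤ i)) (f := F)
        (g := fun j : ℕ => Int.natAbs ((i : ℤ) - j))]
      · refine Finset.sum_le_sum_of_subset_of_nonneg ?_ (fun _ _ _ => hF _)
        intro r hr
        simp only [Finset.mem_image, Finset.mem_filter, Finset.mem_range] at hr ⊢
        obtain ⟨j, hj, rfl⟩ := hr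
        omega
      · intro a ha b hb hab
        simp only [Finset.coe_filter, Set.mem_setOf_eq, Finset.mem_range] at ha hb hab
        omega
    rw [h1]
    linarith
  have h4 := Finset.sum_le_sum h
  rw [Finset.sum_const, Finset.card_range, nsmul_eq_mul] at h4
  linarith

/-- the excess `δ = N^{-2} Σ (e^{2βV}-1)` -/
noncomputable def dl (α β : ℝ) (N : ℕ) : ℝ :=
  (∑ i ∈ Finset.range N, ∑ j ∈ Finset.range N,
    (Real.exp (2 * β * Vb α (Int.natAbs ((i : ℤ) - j))) - 1)) / (N : ℝ) ^ 2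

lemma dl_nonneg {α β : ℝ} (hα : 2 < α) (hβ : 0 < β) (N : ℕ) : 0 ≤ dl α β N := by
  unfold dl
  refine div_nonneg (Finset.sum_nonneg (fun i _ => Finset.sum_nonneg (fun j _ => ?_))) (sq_nonneg _)
  have := Vb_pos hα (Int.natAbs ((i : ℤ) - j))
  have h2 : 0 ≤ 2 * β * Vb α (Int.natAbs ((i : ℤ) - j)) := by positivity
  linarith [Real.add_one_le_exp (2 * β * Vb α (Int.natAbs ((i : ℤ) - j)))]

/-- the constant `8 C₁ / (3-α)` -/
noncomputable def C2 (α : ℝ) : ℝ := 8 * C1 α / (3 - α)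

lemma dl_bound {α β : ℝ} (hα : 2 < α) (hα3 : α < 3) (hβ : 0 < β) :
    ∃ K : ℝ, 0 < K ∧ ∀ N : ℕ, 1 ≤ N →
      dl α β N ≤ C2 α * β * (N : ℝ) ^ (2 - α) + K * (N : ℝ)⁻¹ := by
  have hC1 := C1_pos hα
  -- R0 with 2βVb(r) ≤ 1 for r ≥ R0
  have htend : Filter.Tendsto (fun r : ℕ => 2 * β * Vb α r) Filter.atTop (nhds 0) := by
    have h1 : Filter.Tendsto (fun r : ℕ => ((r : ℝ) + 1) ^ (-(α - 2))) Filter.atTop (nhds 0) :=
      (tendsto_rpow_neg_atTop (by linarith : 0 < α - 2)).comp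
        (Filter.tendsto_atTop_add_const_right _ _ tendsto_natCast_atTop_atTop)
    have h2 := h1.const_mul (2 * β * C1 α)
    rw [mul_zero] at h2
    refine h2.congr (fun r => ?_)
    unfold Vb
    have : -(α - 2) = 2 - α := by ring
    rw [this]; ring
  obtain ⟨R0, hR0⟩ := Filter.eventually_atTop.1 (htend.eventually (gt_mem_nhds (zero_lt_one)))
  have hmono : ∀ r : ℕ, Vb α r ≤ C1 α := by
    intro r
    unfold Vb
    have : ((r : ℝ) + 1) ^ (2 - α) ≤ 1 :=
      Real.rpow_le_one_of_one_le_of_nonpos (by have : (0:ℝ) ≤ r := Nat.cast_nonneg r; linarith) (by linarith)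
    nlinarith
  set K0 : ℝ := Real.exp (2 * β * C1 α) with hK0
  have hK0p : 0 < K0 := Real.exp_pos _
  have hpt : ∀ r : ℕ, Real.exp (2 * β * Vb α r) - 1 ≤ 2 * (2 * β * Vb α r) + (if r < R0 then K0 else 0) := by
    intro r
    have hV := Vb_pos hα r
    by_cases hr : r < R0
    · rw [if_pos hr]
      have : Real.exp (2 * β * Vb α r) ≤ K0 := by
        rw [hK0]
        apply Real.exp_le_exp.2
        have := hmono r
        nlinarith
      have : 0 ≤ 2 * (2 * β * Vb α r) := by positivity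
      linarith
    · rw [if_neg hr, add_zero]
      have h1 := hR0 r (not_lt.1 hr)
      have h0 : 0 ≤ 2 * β * Vb α r := by positivity
      set y := 2 * β * Vb α r
      have := Real.abs_exp_sub_one_le (x := y) (by rw [abs_of_nonneg h0]; exact h1.le)
      rw [abs_of_nonneg h0] at this
      exact (le_abs_self _).trans this
  refine ⟨2 * (R0 * K0 + 1), by positivity, fun N hN => ?_⟩
  have hN0 : (0 : ℝ) < N := by exact_mod_cast hN
  have hsum : ∑ r ∈ Finset.range N, (Real.exp (2 * β * Vb α r) - 1) ≤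
      4 * β * C1 α * ((N : ℝ) ^ (3 - α) / (3 - α)) + R0 * K0 := by
    calc ∑ r ∈ Finset.range N, (Real.exp (2 * β * Vb α r) - 1)
        ≤ ∑ r ∈ Finset.range N, (2 * (2 * β * Vb α r) + (if r < R0 then K0 else 0)) :=
          Finset.sum_le_sum (fun r _ => hpt r)
      _ = 4 * β * C1 α * ∑ r ∈ Finset.range N, ((r : ℝ) + 1) ^ (-(α - 2)) +
          ∑ r ∈ Finset.range N, (if r < R0 then K0 else 0) := by
          rw [Finset.sum_add_distrib, Finset.mul_sum]
          congr 1
          refine Finset.sum_congr rfl (fun r _ => ?_)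
          unfold Vb
          have : -(α - 2) = 2 - α := by ring
          rw [this]; ring
      _ ≤ 4 * β * C1 α * ((N : ℝ) ^ (3 - α) / (3 - α)) + R0 * K0 := by
          have h1 := sum_rpow (s := α - 2) (by linarith) (by linarith) N
          have h2 : 1 - (α - 2) = 3 - α := by ring
          rw [h2] at h1
          have h3 : ∑ r ∈ Finset.range N, (if r < R0 then K0 else 0) ≤ R0 * K0 := by
            rw [← Finset.sum_filter, Finset.sum_const, nsmul_eq_mul]
            refine mul_le_mul_of_nonneg_right ?_ hK0p.le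
            have : ((Finset.range N).filter (fun r => r < R0)).card ≤ (Finset.range R0).card :=
              Finset.card_le_card (fun r hr => by
                rw [Finset.mem_filter] at hr; exact Finset.mem_range.2 hr.2)
            rw [Finset.card_range] at this
            exact_mod_cast this
          have h4 : 0 ≤ 4 * β * C1 α := by positivity
          have := mul_le_mul_of_nonneg_left h1 h4
          linarith
  have hF : ∀ r : ℕ, 0 ≤ Real.exp (2 * β * Vb α r) - 1 := by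
    intro r
    have := Vb_pos hα r
    have h2 : 0 ≤ 2 * β * Vb α r := by positivity
    linarith [Real.add_one_le_exp (2 * β * Vb α r)]
  have hds := double_sum (fun r => Real.exp (2 * β * Vb α r) - 1) hF N
  unfold dl
  rw [div_le_iff₀ (by positivity)]
  refine hds.trans ?_
  have h5 : (N : ℝ) ^ (3 - α) = (N : ℝ) ^ (2 - α) * N := by
    have : (3 - α) = (2 - α) + 1 := by ring
    rw [this, Real.rpow_add hN0, Real.rpow_one]
  have h6 : 2 * (N : ℝ) * ∑ r ∈ Finset.range N, (Real.exp (2 * β * Vb α r) - 1) ≤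
      2 * N * (4 * β * C1 α * ((N : ℝ) ^ (3 - α) / (3 - α)) + R0 * K0) :=
    mul_le_mul_of_nonneg_left hsum (by positivity)
  refine h6.trans ?_
  rw [h5]
  unfold C2
  have h7 : (C1 α) ≠ 0 := hC1.ne'
  have h8 : (3 - α) ≠ 0 := by linarith
  have : (8 * C1 α / (3 - α) * β * (N : ℝ) ^ (2 - α) + 2 * (R0 * K0 + 1) * (N : ℝ)⁻¹) * (N : ℝ) ^ 2 =
     2 * N * (4 * β * C1 α * ((N : ℝ) ^ (2 - α) * N / (3 - α)) + R0 * K0) + 2 * N := by
    field_simp
    ring
  rw [this]
  linarith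

/-- configuration `1_{[-i,j]}` -/
def cf (n : ℕ) (q : Fin (n + 1) × Fin (n + 1)) : Conf n :=
  ⟨ind q.1 q.2, ind_mem (by omega) (by omega)⟩

lemma main_ineq {α β : ℝ} (hα : 2 < α) (hβ : 0 < β) (n : ℕ) (S : ℝ) (hS : 0 < S)
    (h : 2 * dl α β (n + 1) + dl α β (n + 1) ^ 2 ≤ S) : 1 / S ≤ Vr α β n := by
  refine hcr (by linarith : 1 < α) hβ (Finset.univ : Finset (Fin (n + 1) × Fin (n + 1)))
    Finset.univ_nonempty (cf n) ?_ S hS ?_
  · intro q _
    simp [cf, ind]
  · set N : ℕ := n + 1 with hN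
    have hN0 : (0 : ℝ) < N := by rw [hN]; positivity
    have hcard : ((Finset.univ : Finset (Fin N × Fin N)).card : ℝ) = (N : ℝ) ^ 2 := by
      rw [Finset.card_univ, Fintype.card_prod, Fintype.card_fin]; push_cast; ring
    rw [hcard]
    have h1 : ∀ q q' : Fin N × Fin N, Real.exp (2 * β * B α (re (cf n q)) (re (cf n q'))) ≤
        Real.exp (2 * β * Vb α (Int.natAbs ((q.1 : ℤ) - (q'.1 : ℤ)))) *
        Real.exp (2 * β * Vb α (Int.natAbs ((q.2 : ℤ) - (q'.2 : ℤ)))) := by
      intro q q'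
      rw [← Real.exp_add]
      apply Real.exp_le_exp.2
      have := B_ind hα (q.1 : ℕ) (q.2 : ℕ) (q'.1 : ℕ) (q'.2 : ℕ)
      have h2 : B α (re (cf n q)) (re (cf n q')) = B α (fun x => (ind (q.1 : ℕ) (q.2 : ℕ) x : ℝ)) (fun x => (ind (q'.1 : ℕ) (q'.2 : ℕ) x : ℝ)) := rfl
      rw [h2]
      nlinarith
    have h2 : ∑ q : Fin N × Fin N, ∑ q' : Fin N × Fin N, Real.exp (2 * β * B α (re (cf n q)) (re (cf n q'))) ≤
        (∑ i : Fin N, ∑ j : Fin N, Real.exp (2 * β * Vb α (Int.natAbs ((i : ℤ) - (j : ℤ))))) ^ 2 := by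
      refine (Finset.sum_le_sum (fun q _ => Finset.sum_le_sum (fun q' _ => h1 q q'))).trans ?_
      rw [sq, Fintype.sum_prod_type]
      rw [Finset.sum_mul_sum]
      apply le_of_eq
      refine Finset.sum_congr rfl (fun i _ => Finset.sum_congr rfl (fun j _ => ?_))
      rw [Fintype.sum_prod_type, Finset.sum_mul_sum]
    have h3 : ∑ i : Fin N, ∑ j : Fin N, Real.exp (2 * β * Vb α (Int.natAbs ((i : ℤ) - (j : ℤ)))) =
        (N : ℝ) ^ 2 * (1 + dl α β N) := by
      unfold dl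
      rw [← Finset.sum_range (fun i : ℕ => ∑ j : Fin N, Real.exp (2 * β * Vb α (Int.natAbs ((i : ℤ) - (j : ℤ)))))]
      have h4 : ∀ i : ℕ, ∑ j : Fin N, Real.exp (2 * β * Vb α (Int.natAbs ((i : ℤ) - (j : ℤ)))) =
          ∑ j ∈ Finset.range N, (Real.exp (2 * β * Vb α (Int.natAbs ((i : ℤ) - (j : ℤ)))) - 1) + N := by
        intro i
        rw [← Finset.sum_range (fun j : ℕ => Real.exp (2 * β * Vb α (Int.natAbs ((i : ℤ) - (j : ℤ)))))]
        rw [Finset.sum_sub_distrib]
        simp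
      simp only [h4]
      rw [Finset.sum_add_distrib]
      simp only [Finset.sum_const, Finset.card_range, nsmul_eq_mul]
      field_simp
      ring
    rw [h3] at h2
    have h5 : (∑ q : Fin N × Fin N, ∑ q' : Fin N × Fin N, Real.exp (2 * β * B α (re (cf n q)) (re (cf n q')))) / ((N : ℝ) ^ 2) ^ 2 ≤ (1 + dl α β N) ^ 2 := by
      rw [div_le_iff₀ (by positivity)]
      refine h2.trans (le_of_eq ?_)
      ring
    linarith

/-- **Lower bound with the exact order in `n` and in `β`.** -/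
theorem lower_beta {α : ℝ} (hα : 2 < α) (hα3 : α < 3) :
    ∃ c : ℝ, 0 < c ∧ ∀ β : ℝ, 0 < β → ∃ n0 : ℕ, ∀ n : ℕ, n0 ≤ n →
      c * β⁻¹ * (n : ℝ) ^ (α - 2) ≤ Vr α β n := by
  have hC2 : 0 < C2 α := by
    unfold C2
    have := C1_pos hα
    have : 0 < 3 - α := by linarith
    positivity
  refine ⟨1 / (6 * C2 α), by positivity, fun β hβ => ?_⟩
  obtain ⟨K, hK, hd⟩ := dl_bound hα hα3 hβ
  -- eventually K/N ≤ C2 β N^{2-α}, and 2 C2 β N^{2-α} ≤ 1
  have hcast : Filter.Tendsto (fun n : ℕ => ((n + 1 : ℕ) : ℝ)) Filter.atTop Filter.atTop :=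
    tendsto_natCast_atTop_atTop.comp (Filter.tendsto_add_atTop_nat 1)
  have ht1 : Filter.Tendsto (fun n : ℕ => ((n + 1 : ℕ) : ℝ) ^ (-(α - 2))) Filter.atTop (nhds 0) :=
    (tendsto_rpow_neg_atTop (by linarith : 0 < α - 2)).comp hcast
  have ht2 : Filter.Tendsto (fun n : ℕ => ((n + 1 : ℕ) : ℝ) ^ (-(3 - α))) Filter.atTop (nhds 0) :=
    (tendsto_rpow_neg_atTop (by linarith : 0 < 3 - α)).comp hcast
  have hpos1 : 0 < 1 / (2 * C2 α * β) := by positivity
  have hpos2 : 0 < C2 α * β / K := by positivity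
  have hev := (ht1.eventually (gt_mem_nhds hpos1)).and (ht2.eventually (gt_mem_nhds hpos2))
  obtain ⟨n0, hn0⟩ := Filter.eventually_atTop.1 hev
  refine ⟨n0, fun n hn => ?_⟩
  obtain ⟨h1, h2⟩ := hn0 n hn
  set N : ℝ := ((n + 1 : ℕ) : ℝ) with hN
  have hNpos : 0 < N := by rw [hN]; positivity
  have e1 : -(α - 2) = 2 - α := by ring
  rw [e1] at h1
  have h3 := hd (n + 1) (by omega)
  rw [← hN] at h3
  have h4 : K * N⁻¹ ≤ C2 α * β * N ^ (2 - α) := by
    have h5 : N⁻¹ = N ^ (2 - α) * N ^ (-(3 - α)) := by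
      rw [← Real.rpow_add hNpos]
      have : 2 - α + -(3 - α) = -1 := by ring
      rw [this, Real.rpow_neg_one]
    rw [h5]
    have h6 : K * N ^ (-(3 - α)) ≤ C2 α * β := by
      have := h2.le
      rw [le_div_iff₀ hK] at this
      linarith
    have h7 : 0 < N ^ (2 - α) := by positivity
    nlinarith
  set y : ℝ := N ^ (2 - α) with hy
  have hy0 : 0 < y := by positivity
  have h5 : dl α β (n + 1) ≤ 2 * C2 α * β * y := by linarith
  have h6 : 2 * C2 α * β * y ≤ 1 := by
    rw [lt_div_iff₀ (by positivity)] at h1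
    linarith
  have h7 := dl_nonneg hα hβ (n + 1)
  have h8 : 2 * dl α β (n + 1) + dl α β (n + 1) ^ 2 ≤ 6 * C2 α * β * y := by nlinarith
  have h9 := main_ineq hα hβ n (6 * C2 α * β * y) (by positivity) h8
  refine le_trans ?_ h9
  have h10 : (n : ℝ) ^ (α - 2) ≤ N ^ (α - 2) := by
    refine Real.rpow_le_rpow (Nat.cast_nonneg n) ?_ (by linarith)
    rw [hN]; push_cast; linarith
  have h11 : N ^ (α - 2) = y⁻¹ := by
    rw [hy, ← Real.rpow_neg hNpos.le]; congr 1; ring
  have h12 : 1 / (6 * C2 α * β * y) = 1 / (6 * C2 α) * β⁻¹ * y⁻¹ := by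
    field_simp
  rw [h12, ← h11]
  exact mul_le_mul_of_nonneg_left h10 (by positivity)

/-- **Lower bound valid for every `n`.** -/
theorem lower_all {α β : ℝ} (hα : 2 < α) (hα3 : α < 3) (hβ : 0 < β) :
    ∃ c : ℝ, 0 < c ∧ ∀ n : ℕ, c * (n : ℝ) ^ (α - 2) ≤ Vr α β n := by
  have hC2 : 0 < C2 α := by
    unfold C2
    have := C1_pos hα
    have : 0 < 3 - α := by linarith
    positivity
  obtain ⟨K, hK, hd⟩ := dl_bound hα hα3 hβ
  set D : ℝ := C2 α * β + K with hD
  have hD0 : 0 < D := by positivity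
  refine ⟨1 / ((2 + D) * D), by positivity, fun n => ?_⟩
  set N : ℝ := ((n + 1 : ℕ) : ℝ) with hN
  have hNpos : 0 < N := by rw [hN]; positivity
  have hN1 : 1 ≤ N := by rw [hN]; push_cast; have : (0:ℝ) ≤ n := Nat.cast_nonneg n; linarith
  have h3 := hd (n + 1) (by omega)
  rw [← hN] at h3
  set y : ℝ := N ^ (2 - α) with hy
  have hy0 : 0 < y := by positivity
  have hy1 : y ≤ 1 := Real.rpow_le_one_of_one_le_of_nonpos hN1 (by linarith)
  have h4 : N⁻¹ ≤ y := by
    rw [hy, ← Real.rpow_neg_one]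
    exact Real.rpow_le_rpow_of_exponent_le hN1 (by linarith)
  have h5 : dl α β (n + 1) ≤ D * y := by
    rw [hD]; nlinarith
  have h7 := dl_nonneg hα hβ (n + 1)
  have h6 : dl α β (n + 1) ≤ D := by nlinarith
  have h8 : 2 * dl α β (n + 1) + dl α β (n + 1) ^ 2 ≤ (2 + D) * D * y := by nlinarith
  have h9 := main_ineq hα hβ n ((2 + D) * D * y) (by positivity) h8
  refine le_trans ?_ h9
  have h10 : (n : ℝ) ^ (α - 2) ≤ N ^ (α - 2) := by
    refine Real.rpow_le_rpow (Nat.cast_nonneg n) ?_ (by linarith)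
    rw [hN]; push_cast; linarith
  have h11 : N ^ (α - 2) = y⁻¹ := by
    rw [hy, ← Real.rpow_neg hNpos.le]; congr 1; ring
  have h12 : 1 / ((2 + D) * D * y) = 1 / ((2 + D) * D) * y⁻¹ := by
    field_simp
  rw [h12, ← h11]
  exact mul_le_mul_of_nonneg_left h10 (by positivity)

end Pool.Agent.Q216.DG
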